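import Pool.Agent.N988.EP.Stm

/-!
# Project EP (helper988), MP_477c23_pr: upper bounds by paths (helper362)
-/

set_option autoImplicit false

open Pool.Agent.N988.EA Pool.Agent.N988.EC Pool.Agent.N988.EP

namespace Pool.Agent.N362.EP

variable {b n : ℕ}

/-- a path of the half `h` of the branch `i` -/
def lift (i : Fin b) (h : Bool) (l : List (Edge b n × Bool)) : List (Edge b (n + 1) × Bool) :=
  l.map fun q => (((i, h, q.1) : Fin b × Bool × Edge b n), q.2)

lemma leads_append {l l' : List (Edge b n × Bool)} {x y z : Pt b n} (h : Leads l x y)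
    (h' : Leads l' y z) : Leads (l ++ l') x z := by
  induction l generalizing x with
  | nil =>
    have : x = y := h
    subst this
    exact h'
  | cons q l ih => exact ⟨h.1, ih h.2⟩

lemma leads_lift (i : Fin b) (s : Bool) {l : List (Edge b n × Bool)} {x y : Pt b n}
    (h : Leads l x y) : Leads (lift i s l) (emb i s x) (emb i s y) := by
  induction l generalizing x with
  | nil =>
    have : x = y := h
    subst this
    rfl
  | cons q l ih =>
    refine ⟨?_, ih h.2⟩
    change emb i s (bd n q.1 q.2) = emb i s x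
    rw [h.1]

lemma time_append (w : Edge b n → Bool) (l l' : List (Edge b n × Bool)) :
    time w (l ++ l') = time w l + time w l' := by
  simp [time]

lemma time_lift (i : Fin b) (s : Bool) (w : Edge b (n + 1) → Bool) (l : List (Edge b n × Bool)) :
    time w (lift i s l) = time (sub w i s) l := by
  unfold time lift
  rw [List.map_map]
  rfl

lemma emb_same (i : Fin b) (s : Bool) : emb (n := n) i s (.inl s) = .inl s := by
  simp [emb]

lemma emb_ne (i : Fin b) {s t : Bool} (h : t ≠ s) :
    emb (n := n) i s (.inl t) = .inr (.inl i) := by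
  simp [emb, h]

lemma Y_exists (hb : 1 ≤ b) (w : Edge b (n + 1) → Bool) :
    ∃ i : Fin b, Y (n + 1) w = Y n (sub w i false) + Y n (sub w i true) := by
  have : Nonempty (Fin b) := ⟨⟨0, hb⟩⟩
  have h := Nat.sInf_mem (s := Set.range fun i : Fin b => Y n (sub w i false) + Y n (sub w i true))
    (Set.range_nonempty _)
  obtain ⟨i, hi⟩ := h
  exact ⟨i, hi.symm⟩

/-- paths between the two ends -/
lemma path (hb : 1 ≤ b) (s : Bool) : ∀ (n : ℕ) (w : Edge b n → Bool),
    ∃ l, Leads l (.inl s) (.inl (!s)) ∧ time w l ≤ Y n w := by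
  intro n
  induction n with
  | zero =>
    intro w
    refine ⟨[((() : Unit), s)], ⟨rfl, rfl⟩, ?_⟩
    simp only [time, List.map_cons, List.map_nil, List.sum_cons, List.sum_nil, add_zero]
    exact le_refl _
  | succ n ih =>
    intro w
    obtain ⟨i, hi⟩ := Y_exists hb w
    obtain ⟨l, h1, h2⟩ := ih (sub w i s)
    obtain ⟨l', h1', h2'⟩ := ih (sub w i (!s))
    have h := leads_lift i s h1
    rw [emb_same, emb_ne i (by cases s <;> simp)] at h
    have h' := leads_lift i (!s) h1'
    rw [emb_same, emb_ne i (by cases s <;> simp)] at h'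
    refine ⟨lift i s l ++ lift i (!s) l', leads_append h h', ?_⟩
    · rw [time_append, time_lift, time_lift, hi]
      cases s
      · exact Nat.add_le_add h2 h2'
      · rw [add_comm (Y n (sub w i false))]
        exact Nat.add_le_add h2 h2'

/-- every edge is joined to an end -/
lemma ex (hb : 1 ≤ b) : ∀ (n : ℕ) (e : Edge b n), ∃ l, ∃ s : Bool,
    Leads l (bd n e false) (.inl s) := by
  intro n
  induction n with
  | zero => exact fun e => ⟨[], false, rfl⟩
  | succ n ih =>
    rintro ⟨i, s, e⟩
    obtain ⟨l, t, h⟩ := ih e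
    have h1 := leads_lift i s h
    by_cases hts : t = s
    · subst hts
      rw [emb_same] at h1
      exact ⟨_, _, h1⟩
    · rw [emb_ne i hts] at h1
      obtain ⟨l', h', _⟩ := path hb s n (fun _ => false)
      have h2 := leads_lift i (!s) h'
      rw [emb_same, emb_ne i (by cases s <;> simp)] at h2
      exact ⟨_, _, leads_append h1 h2⟩

lemma far_le {w : Edge b n → Bool} {e : Edge b n} {l : List (Edge b n × Bool)} {t s : Bool}
    (h : Leads l (bd n e t) (.inl s)) : far w e ≤ time w l :=
  Nat.sInf_le ⟨l, _, ⟨t, rfl⟩, _, ⟨s, rfl⟩, h, rfl⟩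

theorem t_UP : S_UP := by
  intro b hb
  refine ⟨?_, ?_, ?_⟩
  · intro n w
    obtain ⟨l, h1, h2⟩ := path hb false n w
    exact (Nat.sInf_le ⟨l, _, rfl, _, rfl, h1, rfl⟩ : across w ≤ time w l).trans h2
  · intro w e
    have h : Leads ([] : List (Edge b 0 × Bool)) (bd 0 e false) (.inl false) := rfl
    exact Nat.le_zero.mp (far_le h)
  · intro n w i s e
    have hne : {t | ∃ l, ∃ x ∈ Set.range (bd n e), ∃ y ∈ Set.range (Sum.inl : Bool → Pt b n),
        Leads l x y ∧ time (sub w i s) l = t}.Nonempty := by
      obtain ⟨l, t, h⟩ := ex hb n e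
      exact ⟨_, l, _, ⟨false, rfl⟩, _, ⟨t, rfl⟩, h, rfl⟩
    obtain ⟨l, x, ⟨t, rfl⟩, y, ⟨r, rfl⟩, hl, ht⟩ := Nat.sInf_mem hne
    have ht' : time (sub w i s) l = far (sub w i s) e := ht
    have h1 := leads_lift i s hl
    by_cases hr : r = s
    · subst hr
      rw [emb_same] at h1
      have h2 := far_le (w := w) (e := ((i, r, e) : Edge b (n + 1))) (t := t) h1
      rw [time_lift, ht'] at h2
      omega
    · rw [emb_ne i hr] at h1
      obtain ⟨l', h', ht2⟩ := path hb s n (sub w i (!s))
      have h2 := leads_lift i (!s) h'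
      rw [emb_same, emb_ne i (by cases s <;> simp)] at h2
      have h3 := far_le (w := w) (e := ((i, s, e) : Edge b (n + 1))) (t := t)
        (leads_append h1 h2)
      rw [time_append, time_lift, time_lift, ht'] at h3
      omega

end Pool.Agent.N362.EP
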