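import Pool.Agent.N988.ES.Stm

/-!
# Project ES (helper988), MP_7800de_pr: recursion for the sets without fork (helper362)
-/

set_option autoImplicit false

open Pool.Agent.N988.EA Pool.Agent.N988.EC Pool.Agent.N988.EP Pool.Agent.N988.ES

namespace Pool.Agent.N362.ES

noncomputable section

open Classical

variable {b n : ℕ}

lemma mem_fcell (S : Finset (Edge b (n + 1))) (i : Fin b) (s : Bool) (e : Edge b n) :
    e ∈ fcell S i s ↔ ((i, s, e) : Edge b (n + 1)) ∈ S := by
  exact Finset.mem_preimage

lemma cell_eq (S : Finset (Edge b (n + 1))) (i : Fin b) (s : Bool) :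
    cell (S : Set (Edge b (n + 1))) i s = (fcell S i s : Set (Edge b n)) := by
  ext e
  rw [Finset.mem_coe, mem_fcell]
  rfl

lemma not_fork_empty : ∀ m : ℕ, ¬ Fork m (∅ : Set (Edge b (n + m))) := by
  intro m
  induction m with
  | zero => exact fun h => h
  | succ m ih =>
    have h0 : ∀ (i : Fin b) (s : Bool), cell (∅ : Set (Edge b (n + (m + 1)))) i s = ∅ := by
      intro i s
      rfl
    intro h
    rcases h with ⟨i, j, s, _, h1, _, _⟩ | ⟨i, s, h1⟩
    · rw [h0] at h1
      exact Set.not_nonempty_empty h1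
    · rw [h0] at h1
      exact ih h1

/-- the families of the parts -/
def Ph (b N : ℕ) : Finset (Edge b (N + 1)) ≃
    (Fin b → Finset (Edge b N) × Finset (Edge b N)) where
  toFun S i := (fcell S i false, fcell S i true)
  invFun f := Finset.univ.filter fun q : Fin b × Bool × Edge b N =>
    q.2.2 ∈ if q.2.1 then (f q.1).2 else (f q.1).1
  left_inv S := by
    ext ⟨i, s, e⟩
    refine Finset.mem_filter.trans ?_
    refine (and_iff_right (Finset.mem_univ _)).trans ?_
    cases s
    · exact mem_fcell S i false e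
    · exact mem_fcell S i true e
  right_inv f := by
    funext i
    refine Prod.ext ?_ ?_
    · ext e
      change e ∈ fcell _ i false ↔ _
      rw [mem_fcell]
      refine Finset.mem_filter.trans ?_
      exact and_iff_right (Finset.mem_univ _)
    · ext e
      change e ∈ fcell _ i true ↔ _
      rw [mem_fcell]
      refine Finset.mem_filter.trans ?_
      exact and_iff_right (Finset.mem_univ _)

lemma sum_fam (b N : ℕ) (K : Fin b → Finset (Edge b N) × Finset (Edge b N) → ℝ) :
    ∑ S : Finset (Edge b (N + 1)), ∏ i, K i (fcell S i false, fcell S i true) =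
      ∏ i, ∑ t : Finset (Edge b N) × Finset (Edge b N), K i t := by
  rw [Finset.prod_univ_sum, Fintype.piFinset_univ]
  exact (Ph b N).sum_comp fun f => ∏ i, K i (f i)

/-- indicator of the empty set -/
def ev (N : ℕ) (T : Finset (Edge b N)) : ℝ := if T = ∅ then 1 else 0

/-- weight of the nonempty sets without fork -/
def vv (p : ℝ) (n m : ℕ) (T : Finset (Edge b (n + m))) : ℝ :=
  if T.Nonempty ∧ ¬ Fork m (T : Set (Edge b (n + m))) then xc p T ^ 2 else 0

/-- the factor of one branch -/
def HH (p : ℝ) (n m : ℕ) (t : Finset (Edge b (n + m)) × Finset (Edge b (n + m))) : ℝ :=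
  (1 - p ^ 2) ^ 2 * (ev (n + m) t.1 * ev (n + m) t.2) + p ^ 2 * (ev (n + m) t.1 * vv p n m t.2) +
    p ^ 2 * (vv p n m t.1 * ev (n + m) t.2) + vv p n m t.1 * vv p n m t.2

lemma ev_nonneg (N : ℕ) (T : Finset (Edge b N)) : 0 ≤ ev N T := by
  unfold ev; split_ifs <;> norm_num

lemma vv_nonneg (p : ℝ) (n m : ℕ) (T : Finset (Edge b (n + m))) : 0 ≤ vv p n m T := by
  unfold vv; split_ifs
  · positivity
  · exact le_rfl

lemma ev_ne {N : ℕ} {T : Finset (Edge b N)} (h : T.Nonempty) : ev N T = 0 := by
  unfold ev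
  rw [if_neg h.ne_empty]

lemma vv_empty (p : ℝ) (n m : ℕ) : vv p n m (∅ : Finset (Edge b (n + m))) = 0 := by
  unfold vv
  rw [if_neg (fun h => Finset.not_nonempty_empty h.1)]

lemma vv_ne {p : ℝ} {n m : ℕ} {T : Finset (Edge b (n + m))} (h : vv p n m T ≠ 0) :
    T.Nonempty := by
  by_contra hT
  rw [Finset.not_nonempty_iff_eq_empty] at hT
  subst hT
  exact h (vv_empty p n m)

lemma sum_ev (b N : ℕ) : ∑ T : Finset (Edge b N), ev N T = 1 := by
  unfold ev
  simp

lemma sum_vv (b : ℕ) (p : ℝ) (n m : ℕ) :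
    ∑ T : Finset (Edge b (n + m)), vv p n m T = uf b p n m := rfl

lemma sum_pair (b N : ℕ) (f g : Finset (Edge b N) → ℝ) :
    ∑ t : Finset (Edge b N) × Finset (Edge b N), f t.1 * g t.2 = (∑ T, f T) * ∑ T, g T := by
  rw [Fintype.sum_prod_type, Finset.sum_mul_sum]

lemma sum_HH (b : ℕ) (p : ℝ) (n m : ℕ) :
    ∑ t : Finset (Edge b (n + m)) × Finset (Edge b (n + m)), HH p n m t =
      (1 - p ^ 2) ^ 2 + 2 * p ^ 2 * uf b p n m + uf b p n m ^ 2 := by
  unfold HH
  rw [Finset.sum_add_distrib, Finset.sum_add_distrib, Finset.sum_add_distrib, ← Finset.mul_sum,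
    ← Finset.mul_sum, ← Finset.mul_sum, sum_pair, sum_pair, sum_pair, sum_pair, sum_ev, sum_vv]
  ring

/-- value of the factor if there is no fork -/
lemma HH_eq {p : ℝ} {n m : ℕ} (h0 : xc p (∅ : Finset (Edge b (n + m))) = p)
    (T T' : Finset (Edge b (n + m))) (hT : ¬ Fork m (T : Set (Edge b (n + m))))
    (hT' : ¬ Fork m (T' : Set (Edge b (n + m)))) :
    HH p n m (T, T') = ((if T = ∅ ∧ T' = ∅ then 1 else 0) - xc p T * xc p T') ^ 2 := by
  unfold HH
  simp only
  rcases T.eq_empty_or_nonempty with h | h <;> rcases T'.eq_empty_or_nonempty with h' | h'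
  · subst h h'
    rw [vv_empty, h0]
    simp [ev]
    ring
  · subst h
    have hne : T' ≠ ∅ := h'.ne_empty
    rw [ev_ne h', vv_empty, h0]
    simp [ev, vv, h', hT', hne]
    ring
  · subst h'
    have hne : T ≠ ∅ := h.ne_empty
    rw [ev_ne h, vv_empty, h0]
    simp [ev, vv, h, hT, hne]
    ring
  · have hne : T ≠ ∅ := h.ne_empty
    rw [ev_ne h, ev_ne h']
    simp [vv, h, hT, h', hT', hne]
    ring

theorem t_R1 (h1 : S_COMP) (h2 : S_PARS) : S_R1 := by
  intro b hb p hp0 hp1 hpf n m
  obtain ⟨h0, _⟩ := h2 b (n + m) hb p hp0 hp1 hpf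
  obtain ⟨_, hcomp⟩ := h1 b (n + m) (by omega) p hp0 hp1
  obtain ⟨i0, hi0⟩ : ∃ i : Fin b, i = ⟨0, by omega⟩ := ⟨_, rfl⟩
  obtain ⟨i1, hi1⟩ : ∃ i : Fin b, i = ⟨1, by omega⟩ := ⟨_, rfl⟩
  have h01 : i1 ≠ i0 := by
    rw [hi0, hi1]
    intro h
    have := congrArg Fin.val h
    simp at this
  -- the three families of factors
  obtain ⟨a, ha⟩ : ∃ a, a = (1 - p ^ 2) ^ 2 := ⟨_, rfl⟩
  have ha0 : 0 ≤ a := by rw [ha]; positivity
  obtain ⟨K0, hK0⟩ : ∃ K0 : Finset (Edge b (n + m)) × Finset (Edge b (n + m)) → ℝ,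
      K0 = fun t => a * (ev (n + m) t.1 * ev (n + m) t.2) := ⟨_, rfl⟩
  obtain ⟨K, hK⟩ : ∃ K : Fin b → Finset (Edge b (n + m)) × Finset (Edge b (n + m)) → ℝ,
      K = fun i t => if i = i0 then vv p n m t.1 * vv p n m t.2 else
        if i = i1 then p ^ 2 * (vv p n m t.1 * ev (n + m) t.2) else K0 t := ⟨_, rfl⟩
  have hHH0 : ∀ t : Finset (Edge b (n + m)) × Finset (Edge b (n + m)), 0 ≤ HH p n m t ∧
      0 ≤ K0 t ∧ K0 t ≤ HH p n m t ∧ ∀ i, 0 ≤ K i t ∧ K i t ≤ HH p n m t := by
    intro t
    have e1 := ev_nonneg (n + m) t.1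
    have e2 := ev_nonneg (n + m) t.2
    have v1 := vv_nonneg p n m t.1
    have v2 := vv_nonneg p n m t.2
    have a1 : 0 ≤ a * (ev (n + m) t.1 * ev (n + m) t.2) := by positivity
    have a2 : 0 ≤ p ^ 2 * (ev (n + m) t.1 * vv p n m t.2) := by positivity
    have a3 : 0 ≤ p ^ 2 * (vv p n m t.1 * ev (n + m) t.2) := by positivity
    have a4 : 0 ≤ vv p n m t.1 * vv p n m t.2 := by positivity
    have hH : HH p n m t = a * (ev (n + m) t.1 * ev (n + m) t.2) +
        p ^ 2 * (ev (n + m) t.1 * vv p n m t.2) + p ^ 2 * (vv p n m t.1 * ev (n + m) t.2) +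
        vv p n m t.1 * vv p n m t.2 := by
      rw [HH, ha]
    have hK0t : K0 t = a * (ev (n + m) t.1 * ev (n + m) t.2) := by rw [hK0]
    refine ⟨by rw [hH]; linarith, by rw [hK0t]; linarith, by rw [hK0t, hH]; linarith, ?_⟩
    intro i
    rw [hK]
    simp only
    split_ifs
    · exact ⟨a4, by rw [hH]; linarith⟩
    · exact ⟨a3, by rw [hH]; linarith⟩
    · exact ⟨by rw [hK0t]; linarith, by rw [hK0t, hH]; linarith⟩
  have hK0sum : ∑ t : Finset (Edge b (n + m)) × Finset (Edge b (n + m)), K0 t = a := by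
    rw [hK0]
    simp only
    rw [← Finset.mul_sum, sum_pair, sum_ev]
    ring
  -- the pointwise inequality
  have key : ∀ S : Finset (Edge b (n + m + 1)),
      (if S.Nonempty ∧ ¬ Fork (m + 1) (S : Set (Edge b (n + (m + 1)))) then xc p S ^ 2 else 0) +
        ∏ i, K0 (fcell S i false, fcell S i true) +
        ∏ i, K i (fcell S i false, fcell S i true) ≤
      ∏ i : Fin b, HH p n m (fcell S i false, fcell S i true) := by
    intro S
    have hle0 : ∏ i, K0 (fcell S i false, fcell S i true) ≤
        ∏ i : Fin b, HH p n m (fcell S i false, fcell S i true) :=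
      Finset.prod_le_prod (fun i _ => (hHH0 _).2.1) fun i _ => (hHH0 _).2.2.1
    have hle1 : ∏ i, K i (fcell S i false, fcell S i true) ≤
        ∏ i : Fin b, HH p n m (fcell S i false, fcell S i true) :=
      Finset.prod_le_prod (fun i _ => ((hHH0 _).2.2.2 i).1) fun i _ => ((hHH0 _).2.2.2 i).2
    rcases S.eq_empty_or_nonempty with hS | hS
    · have hz : ∏ i, K i (fcell S i false, fcell S i true) = 0 := by
        apply Finset.prod_eq_zero (Finset.mem_univ i0)
        rw [hK]
        simp only [if_true]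
        have : fcell S i0 false = ∅ := by
          rw [Finset.eq_empty_iff_forall_notMem]
          intro e he
          rw [mem_fcell, hS] at he
          exact Finset.notMem_empty _ he
        rw [this, vv_empty, zero_mul]
      rw [if_neg (fun h => h.1.ne_empty hS), hz]
      linarith
    · have hz : ∏ i, K0 (fcell S i false, fcell S i true) = 0 := by
        obtain ⟨⟨i, s, e⟩, he⟩ := hS
        apply Finset.prod_eq_zero (Finset.mem_univ i)
        rw [hK0]
        simp only
        have hne : (fcell S i s).Nonempty := ⟨e, (mem_fcell S i s e).mpr he⟩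
        cases s
        · rw [ev_ne hne]
          ring
        · rw [ev_ne hne]
          ring
      rw [hz]
      by_cases hF : Fork (m + 1) (S : Set (Edge b (n + (m + 1))))
      · rw [if_neg (fun h => h.2 hF)]
        linarith
      · rw [if_pos ⟨hS, hF⟩]
        have hcells : ∀ (i : Fin b) (s : Bool),
            ¬ Fork m (fcell S i s : Set (Edge b (n + m))) := by
          intro i s h
          refine hF (Or.inr ⟨i, s, ?_⟩)
          have := cell_eq (n := n + m) S i s
          rw [← this] at h
          exact h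
        have hx : xc p S ^ 2 = ∏ i : Fin b, HH p n m (fcell S i false, fcell S i true) := by
          rw [hcomp S, if_neg hS.ne_empty, zero_sub, neg_sq, ← Finset.prod_pow]
          refine Finset.prod_congr rfl fun i _ => ?_
          rw [HH_eq h0 _ _ (hcells i false) (hcells i true)]
        have hz1 : ∏ i, K i (fcell S i false, fcell S i true) = 0 := by
          by_contra hne
          have hne' := Finset.prod_ne_zero_iff.mp hne
          have k0 := hne' i0 (Finset.mem_univ _)
          have k1 := hne' i1 (Finset.mem_univ _)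
          rw [hK] at k0 k1
          simp only [if_true, if_neg h01] at k0 k1
          have c1 := vv_ne (left_ne_zero_of_mul k0)
          have c2 := vv_ne (right_ne_zero_of_mul k0)
          have c3 := vv_ne (left_ne_zero_of_mul (right_ne_zero_of_mul k1))
          refine hF (Or.inl ⟨i0, i1, false, h01, ?_, ?_, ?_⟩)
          · have := cell_eq (n := n + m) S i0 false
            exact this ▸ c1
          · have := cell_eq (n := n + m) S i0 true
            exact this ▸ c2
          · have := cell_eq (n := n + m) S i1 false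
            exact this ▸ c3
        rw [hx, hz1]
        linarith
  have hsum := Finset.sum_le_sum fun (S : Finset (Edge b (n + m + 1))) (_ : S ∈ Finset.univ) =>
    key S
  rw [Finset.sum_add_distrib, Finset.sum_add_distrib, sum_fam b (n + m) (fun _ => K0),
    sum_fam b (n + m) K, sum_fam b (n + m) (fun _ => HH p n m)] at hsum
  have hKprod : ∏ i, ∑ t : Finset (Edge b (n + m)) × Finset (Edge b (n + m)), K i t =
      p ^ 2 * a ^ (b - 2) * uf b p n m ^ 3 := by
    rw [← Finset.mul_prod_erase Finset.univ _ (Finset.mem_univ i0),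
      ← Finset.mul_prod_erase (Finset.univ.erase i0) _
        (Finset.mem_erase.mpr ⟨h01, Finset.mem_univ i1⟩)]
    have s0 : ∑ t : Finset (Edge b (n + m)) × Finset (Edge b (n + m)), K i0 t =
        uf b p n m ^ 2 := by
      rw [hK]
      simp only [if_true]
      rw [sum_pair, sum_vv]
      ring
    have s1 : ∑ t : Finset (Edge b (n + m)) × Finset (Edge b (n + m)), K i1 t =
        p ^ 2 * uf b p n m := by
      rw [hK]
      simp only [if_neg h01, if_true]
      rw [← Finset.mul_sum, sum_pair, sum_vv, sum_ev]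
      ring
    have s2 : ∏ i ∈ (Finset.univ.erase i0).erase i1,
        ∑ t : Finset (Edge b (n + m)) × Finset (Edge b (n + m)), K i t = a ^ (b - 2) := by
      have : ∀ i ∈ (Finset.univ.erase i0).erase i1,
          ∑ t : Finset (Edge b (n + m)) × Finset (Edge b (n + m)), K i t = a := by
        intro i hi
        rw [Finset.mem_erase, Finset.mem_erase] at hi
        rw [hK]
        simp only [if_neg hi.1, if_neg hi.2.1]
        exact hK0sum
      rw [Finset.prod_congr rfl this, Finset.prod_const,
        Finset.card_erase_of_mem (Finset.mem_erase.mpr ⟨h01, Finset.mem_univ i1⟩),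
        Finset.card_erase_of_mem (Finset.mem_univ i0), Finset.card_univ, Fintype.card_fin]
      rfl
    rw [s0, s1, s2]
    ring
  rw [hKprod, Finset.prod_const, Finset.prod_const, hK0sum, sum_HH, Finset.card_univ,
    Fintype.card_fin] at hsum
  have hfin : uf b p n (m + 1) + a ^ b + p ^ 2 * a ^ (b - 2) * uf b p n m ^ 3 ≤
      ((1 - p ^ 2) ^ 2 + 2 * p ^ 2 * uf b p n m + uf b p n m ^ 2) ^ b := hsum
  rw [ha] at hfin
  linarith

end

end Pool.Agent.N362.ES
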