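import Pool.Agent.N906.QP.Stm
import Pool.Agent.N645.KG_UPG

/-!
# Project QP (helper906), statement UPU: the upper bound, uniform in the gain `G`

`upu` proves `S_UPU K q κ₁` from `S_BASQ K`, `S_CELLQ K`, `S_RANK K` and `S_BIGQ K q κ₁`, following the paper proof in
`Pool/Agent/N906/QP/Stm.lean`. The codes of the points (`Ic`, `codes`) and several lemmas on tuples of ideals are those of
`Pool/Agent/N645/KG_UPG.lean`. Written by helper362.
-/

set_option autoImplicit false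
set_option linter.unusedSectionVars false

namespace Pool.Agent.N362.QP

open NumberField IsDedekindDomain Finset Filter Topology Pool.Agent.H691R3 Pool.Agent.W223.AK
open Pool.Agent.N906.NT (Cx cst)
open Pool.Agent.N906.KG Pool.Agent.N645.KG

variable {K : Type} [Field K] [NumberField K]

/-! ### the squareful part -/

/-- the squareful part of an ideal -/
noncomputable def sqf (a : Idl K) : Idl K := a.mapRange (fun n => if 2 ≤ n then n else 0) rfl

theorem sqf_apply (a : Idl K) (v : Pr K) : sqf a v = if 2 ≤ a v then a v else 0 := rfl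

theorem sqf_le (a : Idl K) : sqf a ≤ a := by
  intro v
  rw [sqf_apply]
  split_ifs
  · exact le_refl _
  · exact Nat.zero_le _

/-- the complex of the sets with at most one element -/
def Sg (q : ℕ) : Finset (Finset (Fin q)) := univ.filter fun s => s.card ≤ 1

theorem cx_sg {q : ℕ} (hq : 1 ≤ q) : Cx (Sg q) 1 q := by
  classical
  refine ⟨le_refl _, hq, ?_, ?_, ?_, ?_⟩
  · unfold Sg
    rw [mem_filter]
    exact ⟨mem_univ _, by simp⟩
  · intro s hs s' hs'
    unfold Sg at hs ⊢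
    rw [mem_filter] at hs ⊢
    exact ⟨mem_univ _, (card_le_card hs').trans hs.2⟩
  · intro s hs
    unfold Sg at hs
    rw [mem_filter] at hs
    exact hs.2
  · have h1 : ((Sg q).filter fun s => s.card = 1) = powersetCard 1 (univ : Finset (Fin q)) := by
      ext s
      unfold Sg
      rw [mem_filter, mem_filter, mem_powersetCard]
      constructor
      · rintro ⟨-, h⟩
        exact ⟨subset_univ _, h⟩
      · rintro ⟨-, h⟩
        exact ⟨⟨mem_univ _, h.le⟩, h⟩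
    rw [h1, card_powersetCard, card_univ, Fintype.card_fin, Nat.choose_one_right]

theorem one_index {q : ℕ} (hq : 1 ≤ q) {P : Fin q → Idl K}
    (hP : ∀ l l', l ≠ l' → Cop (P l) (P l')) (v : Pr K) : ∃ i, ∀ j, j ≠ i → P j v = 0 := by
  by_cases h : ∃ i, P i v ≠ 0
  · obtain ⟨i, hi⟩ := h
    exact ⟨i, fun j hj => (hP j i hj v).resolve_right hi⟩
  · push Not at h
    exact ⟨⟨0, hq⟩, fun j _ => h j⟩

theorem tp_of_cop {q : ℕ} (hq : 1 ≤ q) {P : Fin q → Idl K}
    (hP : ∀ l l', l ≠ l' → Cop (P l) (P l')) : Tp (Sg q) P := by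
  intro v
  obtain ⟨i, hi⟩ := one_index hq hP v
  unfold Sg
  rw [mem_filter]
  refine ⟨mem_univ _, ?_⟩
  rw [Finset.card_le_one]
  intro a ha b hb
  rw [mem_filter] at ha hb
  have h1 : a = i := by
    by_contra h
    exact ha.2 (hi a h)
  have h2 : b = i := by
    by_contra h
    exact hb.2 (hi b h)
  rw [h1, h2]

theorem cop_sqf {q : ℕ} {P : Fin q → Idl K} (hP : ∀ l l', l ≠ l' → Cop (P l) (P l')) :
    ∀ l l', l ≠ l' → Cop (sqf (P l)) (sqf (P l')) := by
  intro l l' h v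
  rw [sqf_apply, sqf_apply]
  rcases hP l l' h v with h1 | h1
  · left
    rw [if_neg (by omega)]
  · right
    rw [if_neg (by omega)]

theorem sq_sqf {q : ℕ} (P : Fin q → Idl K) : Sq fun l => sqf (P l) := by
  intro v h'
  have h : ∑ l, sqf (P l) v = 1 := h'
  have h1 : ∀ l, sqf (P l) v = 0 ∨ 2 ≤ sqf (P l) v := by
    intro l
    rw [sqf_apply]
    split_ifs with h
    · exact Or.inr h
    · exact Or.inl rfl
  have h2 : ∀ l, sqf (P l) v ≤ 1 := by
    intro l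
    rw [← h]
    exact Finset.single_le_sum (f := fun l => sqf (P l) v) (fun _ _ => Nat.zero_le _) (mem_univ l)
  have h3 : ∑ l, sqf (P l) v = 0 := by
    refine Finset.sum_eq_zero fun l _ => ?_
    have := h1 l
    have := h2 l
    omega
  omega

theorem gl_sqf {q : ℕ} (hq : 1 ≤ q) {P : Fin q → Idl K}
    (hP : ∀ l l', l ≠ l' → Cop (P l) (P l')) : gl (fun l => sqf (P l)) = gl P := by
  classical
  rw [gl_eq, gl_eq]
  have hs : ∀ v, ∃ i, (∑ l, P l v = P i v) ∧ (∑ l, sqf (P l) v = sqf (P i) v) ∧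
      ∀ j, j ≠ i → P j v = 0 := by
    intro v
    obtain ⟨i, hi⟩ := one_index hq hP v
    refine ⟨i, ?_, ?_, hi⟩
    · exact Finset.sum_eq_single i (fun j _ hj => hi j hj) (fun h => absurd (mem_univ i) h)
    · refine Finset.sum_eq_single i (fun j _ hj => ?_) (fun h => absurd (mem_univ i) h)
      rw [sqf_apply, hi j hj]
      rfl
  refine Finset.sum_subset_zero_on_sdiff ?_ ?_ ?_
  · intro v hv
    obtain ⟨i, hi⟩ := mem_sp.1 hv
    refine mem_sp.2 ⟨i, fun h => hi ?_⟩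
    rw [sqf_apply, h]
    rfl
  · intro v hv
    rw [Finset.mem_sdiff] at hv
    obtain ⟨i, h1, h2, h3⟩ := hs v
    obtain ⟨j, hj⟩ := mem_sp.1 hv.1
    have hji : j = i := by
      by_contra h
      exact hj (h3 j h)
    have h4 : sqf (P i) v = 0 := by
      by_contra h
      exact hv.2 (mem_sp.2 ⟨i, h⟩)
    rw [hji] at hj
    have h5 : P i v = 1 := by
      rw [sqf_apply] at h4
      split_ifs at h4 with h6
      · exact absurd h4 hj
      · omega
    rw [h1, h5]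
    simp
  · intro v hv
    obtain ⟨i, h1, h2, h3⟩ := hs v
    obtain ⟨j, hj⟩ := mem_sp.1 hv
    have hji : j = i := by
      by_contra h
      apply hj
      show sqf (P j) v = 0
      rw [sqf_apply, h3 j h]
      rfl
    rw [hji] at hj
    have h4 : sqf (P i) v = P i v := by
      have hj' : sqf (P i) v ≠ 0 := hj
      rw [sqf_apply] at hj' ⊢
      split_ifs at hj' ⊢ with h6
      · rfl
      · exact absurd rfl hj'
    show (((∑ l, sqf (P l) v : ℕ) : ℝ) - 1) * Real.log (Nv v) = _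
    rw [h1, h2, h4]

/-! ### one code -/

/-- the upper bound for the size of the ideals, in terms of the code -/
theorem tl_up (h1 : S_BASQ K) {q : ℕ} {α : Fin q → K × K} (hq : 1 ≤ q) (hα : Al α)
    {S : Finset (Pr K)} (hS : Gd S α) :
    ∃ C' : ℝ, 0 ≤ C' ∧ ∀ x, Of α x → ∀ P, IsP S α x P → ∀ (C : ℝ)
      (c : ℕ × (Pl K → Fin q) × (Pl K → ℕ)), Ic α S C c x →
      tl P ≤ q * hr (aff x) - Kc S c + C' := by
  classical
  obtain ⟨C₀, hC₀, hb⟩ := (h1 q α hq hα).2 S hS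
  obtain ⟨Λ, hΛ⟩ : ∃ Λ : ℝ, Λ = ∑ v ∈ Spl S, loss v := ⟨_, rfl⟩
  have hΛ0 : 0 ≤ Λ := by rw [hΛ]; exact Finset.sum_nonneg fun v _ => loss_nonneg v
  refine ⟨C₀ + q * Λ, by positivity, fun x hx P hP C c hc => ?_⟩
  obtain ⟨-, h2, h3, -⟩ := hb x hx
  obtain ⟨-, h4, -⟩ := h2 P hP
  have h5 := (abs_le.1 h4).1
  have h6 : Kc S c - q * Λ ≤ ∑ l, ∑ v ∈ Spl S, lam v (aff x) (α l) := by
    rw [Finset.sum_comm, hΛ, Finset.mul_sum]
    unfold Kc
    rw [← Finset.sum_sub_distrib]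
    refine Finset.sum_le_sum fun v hv => ?_
    have h7 : lam v (aff x) (α (c.2.1 v)) + loss v ≤ ∑ l, (lam v (aff x) (α l) + loss v) :=
      Finset.single_le_sum (f := fun l => lam v (aff x) (α l) + loss v)
        (fun l _ => by have := (h3 v hv).1 l; linarith) (mem_univ _)
    rw [Finset.sum_add_distrib, Finset.sum_const, card_univ, Fintype.card_fin, nsmul_eq_mul] at h7
    have h8 := hc.cl v hv
    linarith
  linarith

/-- the contribution of one code -/
theorem cls {q : ℕ} {α : Fin q → K × K} {S : Finset (Pr K)} {A C C' X G κ R : ℝ} (hq : 1 ≤ q)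
    (hA : 0 ≤ A) (hC : 0 ≤ C) (hκ1 : κ ≤ 1) (h : CB α S A)
    (hrank : ∀ (T : ℝ) (F : Finset (Fin q → Idl K)), T ≤ G →
      (∀ D ∈ F, Tp (Sg q) D ∧ Sq D ∧ T ≤ gl D) →
      ∑ D ∈ F, Real.exp (-tl D) ≤ Real.exp (-T + R))
    (hα : ∀ x, Of α x → ∀ P, IsP S α x P → ∀ l l', l ≠ l' → Cop (P l) (P l'))
    {c : ℕ × (Pl K → Fin q) × (Pl K → ℕ)}
    (hup : ∀ x, Of α x → ∀ P, IsP S α x P → Ic α S C c x →
      tl P ≤ q * hr (aff x) - Kc S c + C')
    {F : Finset K} (hF : ∀ x ∈ F, Of α x ∧ hr (aff x) ≤ X ∧ Ic α S C c x ∧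
      ∃ P, IsP S α x P ∧ tr P ≤ q * hr (aff x) - G ∧ ((q : ℝ) - κ) * hr (aff x) ≤ tr P) :
    (F.card : ℝ) ≤ A * (Real.exp 2 + Real.exp (2 * C')) * Real.exp C *
      Real.exp (2 * X - G + R) := by
  classical
  have k1 := Kc0 S c
  obtain ⟨T, hT⟩ : ∃ T : ℝ, T = G - C - Kc S c := ⟨_, rfl⟩
  have hex : ∀ x : K, ∃ D : Fin q → Idl K, x ∈ F → Tp (Sg q) D ∧ Sq D ∧ T ≤ gl D ∧
      tl D + Kc S c ≤ 2 * X + 2 * C' ∧ ∃ P, IsP S α x P ∧ ∀ l, D l ≤ P l := by
    intro x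
    by_cases hx : x ∈ F
    · obtain ⟨g1, g2, g3, P, hP, g4, g5⟩ := hF x hx
      have hcop := hα x g1 P hP
      refine ⟨fun l => sqf (P l), fun _ => ⟨tp_of_cop hq (cop_sqf hcop), sq_sqf P, ?_, ?_, P, hP,
        fun l => sqf_le _⟩⟩
      · rw [gl_sqf hq hcop, hT]
        have := g3.ge P hP
        unfold gl
        unfold Kc
        linarith
      · have e1 : gl (fun l => sqf (P l)) + Kc S c ≤ X + C' := by
          rw [gl_sqf hq hcop]
          unfold gl
          have e2 := hup x g1 P hP g3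
          have e3 : 0 ≤ hr (aff x) := hr_aff_nonneg x
          have e4 : κ * hr (aff x) ≤ 1 * X := mul_le_mul hκ1 g2 e3 (by norm_num)
          linarith
        have e5 := tr_le_gl (sq_sqf P)
        have e6 : tl (fun l => sqf (P l)) = gl (fun l => sqf (P l)) + tr (fun l => sqf (P l)) := by
          unfold gl
          ring
        linarith
    · exact ⟨0, fun h => absurd h hx⟩
  choose d hd using hex
  obtain ⟨L, hL⟩ : ∃ L : Finset (Fin q → Idl K), L = F.image d := ⟨_, rfl⟩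
  have hterm : ∀ D ∈ L, ((#{x ∈ F | d x = D} : ℕ) : ℝ) ≤
      A * (Real.exp 2 + Real.exp (2 * C')) * Real.exp (2 * X - Kc S c) * Real.exp (-tl D) := by
    intro D hD
    rw [hL] at hD
    obtain ⟨x₀, hx₀, hD₀⟩ := mem_image.1 hD
    have b1 := cell_code (C := C) (c := c) (D := D) (F := {x ∈ F | d x = D}) hA h (by
      intro x hx
      rw [mem_filter] at hx
      obtain ⟨g1, g2, g3, -⟩ := hF x hx.1
      obtain ⟨-, -, -, -, g4⟩ := hd x hx.1
      rw [hx.2] at g4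
      exact ⟨g1, g3, g4⟩)
    refine b1.trans ?_
    rw [mul_assoc A, mul_assoc A]
    apply mul_le_mul_of_nonneg_left _ hA
    obtain ⟨g1, g2, g3, -⟩ := hF x₀ hx₀
    obtain ⟨-, -, -, g4, -⟩ := hd x₀ hx₀
    rw [hD₀] at g4
    have g5 := g3.dn
    have e1 : Real.exp (2 * c.1 - tl D - Kc S c) ≤
        Real.exp 2 * (Real.exp (2 * X - Kc S c) * Real.exp (-tl D)) := by
      rw [← Real.exp_add, ← Real.exp_add]
      exact Real.exp_le_exp.2 (by linarith)
    have e2 : 1 ≤ Real.exp (2 * C') * (Real.exp (2 * X - Kc S c) * Real.exp (-tl D)) := by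
      rw [← Real.exp_add, ← Real.exp_add]
      exact Real.one_le_exp (by linarith)
    calc Real.exp (2 * c.1 - tl D - Kc S c) + 1
        ≤ Real.exp 2 * (Real.exp (2 * X - Kc S c) * Real.exp (-tl D)) +
          Real.exp (2 * C') * (Real.exp (2 * X - Kc S c) * Real.exp (-tl D)) := add_le_add e1 e2
      _ = _ := by ring
  have hsum : (F.card : ℝ) ≤ A * (Real.exp 2 + Real.exp (2 * C')) * Real.exp (2 * X - Kc S c) *
      ∑ D ∈ L, Real.exp (-tl D) := by
    rw [card_eq_sum_card_image d F, ← hL]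
    push_cast
    refine (Finset.sum_le_sum hterm).trans (le_of_eq ?_)
    rw [Finset.mul_sum]
  have hr' : ∑ D ∈ L, Real.exp (-tl D) ≤ Real.exp (-T + R) := by
    refine hrank T L (by rw [hT]; linarith) fun D hD => ?_
    rw [hL] at hD
    obtain ⟨x₀, hx₀, hD₀⟩ := mem_image.1 hD
    obtain ⟨g1, g2, g3, -⟩ := hd x₀ hx₀
    rw [hD₀] at g1 g2 g3
    exact ⟨g1, g2, g3⟩
  refine hsum.trans ?_
  calc A * (Real.exp 2 + Real.exp (2 * C')) * Real.exp (2 * X - Kc S c) *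
        ∑ D ∈ L, Real.exp (-tl D)
      ≤ A * (Real.exp 2 + Real.exp (2 * C')) * Real.exp (2 * X - Kc S c) * Real.exp (-T + R) :=
        mul_le_mul_of_nonneg_left hr' (by positivity)
    _ = A * (Real.exp 2 + Real.exp (2 * C')) *
        (Real.exp (2 * X - Kc S c) * Real.exp (-T + R)) := by ring
    _ = A * (Real.exp 2 + Real.exp (2 * C')) * (Real.exp C * Real.exp (2 * X - G + R)) := by
        rw [← Real.exp_add, ← Real.exp_add, hT]
        congr 2
        ring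
    _ = _ := by ring

/-! ### asymptotics -/

theorem cst_one (q : ℕ) : cst 1 q = √(8 * q) := by
  unfold cst
  rw [Real.sqrt_eq_rpow, Real.mul_rpow (by norm_num) (Nat.cast_nonneg _)]
  congr 1
  · rw [show (8 : ℝ) = 2 ^ (3 : ℝ) by norm_num, ← Real.rpow_mul (by norm_num)]
    norm_num
  · norm_num

/-- polynomial factors -/
theorem poly1 {c η A : ℝ} (hc : 0 < c) (hη : 0 < η) (hA : 0 < A) (n : ℕ) :
    ∀ᶠ X : ℝ in atTop, A * (X + A) ^ n ≤ Real.exp (η * √(c * X / Real.log X)) := by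
  have hN : (0 : ℝ) < ((2 * n + 1 : ℕ) : ℝ) := by positivity
  have hc' : (0 : ℝ) < c * (η / ((2 * n + 1 : ℕ) : ℝ)) ^ 2 := by positivity
  have e0 : (fun x : ℝ => Real.log x ^ 3) =o[atTop] (id : ℝ → ℝ) :=
    Real.isLittleO_pow_log_id_atTop (n := 3)
  have e1 := e0.bound hc'
  filter_upwards [e1, eventually_ge_atTop A, eventually_ge_atTop (2 : ℝ),
    Real.tendsto_log_atTop.eventually_ge_atTop 1] with X h1 h2 h3 h4
  have hX0 : 0 < X := by linarith
  have hl0 : 0 < Real.log X := by linarith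
  rw [Real.norm_of_nonneg (by positivity), id, Real.norm_of_nonneg hX0.le] at h1
  have h5 : A * (X + A) ^ n ≤ X ^ (2 * n + 1) := by
    calc A * (X + A) ^ n ≤ X * (X ^ 2) ^ n := by
          apply mul_le_mul h2 (pow_le_pow_left₀ (by linarith) (by nlinarith) n) (by positivity)
            hX0.le
      _ = X ^ (2 * n + 1) := by rw [← pow_mul]; ring
  refine h5.trans ?_
  have h6 : X ^ (2 * n + 1) = Real.exp (((2 * n + 1 : ℕ) : ℝ) * Real.log X) := by
    rw [← Real.log_pow, Real.exp_log (by positivity)]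
  rw [h6]
  apply Real.exp_le_exp.2
  obtain ⟨N, hNd⟩ : ∃ N : ℝ, N = ((2 * n + 1 : ℕ) : ℝ) := ⟨_, rfl⟩
  rw [← hNd] at h1 hN ⊢
  have h7 : N * Real.log X / η ≤ √(c * X / Real.log X) := by
    apply Real.le_sqrt_of_sq_le
    rw [le_div_iff₀ hl0]
    have h8 : (N * Real.log X / η) ^ 2 * Real.log X = Real.log X ^ 3 / (η / N) ^ 2 := by
      field_simp
    rw [h8, div_le_iff₀ (by positivity)]
    linarith
  rw [div_le_iff₀ hη] at h7
  linarith

/-- the final comparison -/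
theorem asym {q : ℕ} {δ ε A : ℝ} (hq : 1 ≤ q) (hδ : 0 < δ) (hε : 0 < ε) (hA : 0 < A) (N : ℕ) :
    ∀ᶠ X : ℝ in atTop, ∀ G : ℝ, δ * X ≤ G →
      A * (X + A) ^ N * Real.exp ((1 + ε / 4) * cst 1 q *
        (G / Real.log G) ^ ((1 : ℝ) / 2)) ≤
      Real.exp ((1 + ε) * √(8 * q * G / Real.log X)) := by
  have hq0 : (0 : ℝ) < q := by exact_mod_cast hq
  obtain ⟨ρ, hρ⟩ : ∃ ρ : ℝ, ρ = (1 + ε / 4) / (1 + ε / 2) := ⟨_, rfl⟩
  have hρ0 : 0 < ρ := by rw [hρ]; positivity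
  have hρ1 : ρ < 1 := by rw [hρ, div_lt_one (by positivity)]; linarith
  have hρ2 : (1 + ε / 4) / ρ = 1 + ε / 2 := by rw [hρ]; field_simp
  have hρ3 : 0 < 1 - ρ ^ 2 := by nlinarith
  have e1 : ∀ᶠ x : ℝ in atTop, -Real.log δ / (1 - ρ ^ 2) ≤ Real.log x :=
    Real.tendsto_log_atTop.eventually_ge_atTop _
  filter_upwards [e1, poly1 (show 0 < 8 * (q : ℝ) * δ by positivity)
    (show 0 < ε / 2 by positivity) hA N, eventually_ge_atTop (1 : ℝ),
    Real.tendsto_log_atTop.eventually_ge_atTop 1] with X h1 h2 h3 h4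
  intro G hG
  have hX0 : 0 < X := by linarith
  have hl0 : 0 < Real.log X := by linarith
  have hG0 : 0 < G := lt_of_lt_of_le (by positivity) hG
  have h5 : ρ ^ 2 * Real.log X ≤ Real.log G := by
    have h6 : Real.log (δ * X) ≤ Real.log G := Real.log_le_log (by positivity) hG
    rw [Real.log_mul hδ.ne' hX0.ne'] at h6
    rw [div_le_iff₀ hρ3] at h1
    linarith
  obtain ⟨V, hV⟩ : ∃ V : ℝ, V = √(8 * q * G / Real.log X) := ⟨_, rfl⟩
  have hV0 : 0 ≤ V := by rw [hV]; positivity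
  have hR : (1 + ε / 4) * cst 1 q * (G / Real.log G) ^ ((1 : ℝ) / 2) ≤ (1 + ε / 2) * V := by
    rw [cst_one, ← Real.sqrt_eq_rpow, mul_assoc, ← Real.sqrt_mul (by positivity)]
    have h7 : √(8 * (q : ℝ) * (G / Real.log G)) ≤ V / ρ := by
      rw [hV]
      have h8 : √(8 * q * G / Real.log X) / ρ = √(8 * q * G / Real.log X / ρ ^ 2) := by
        rw [Real.sqrt_div (by positivity) (ρ ^ 2), Real.sqrt_sq hρ0.le]
      rw [h8]
      apply Real.sqrt_le_sqrt
      calc 8 * (q : ℝ) * (G / Real.log G) = 8 * q * G / Real.log G := by ring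
        _ ≤ 8 * q * G / (ρ ^ 2 * Real.log X) :=
            div_le_div_of_nonneg_left (by positivity) (by positivity) h5
        _ = _ := by field_simp
    calc (1 + ε / 4) * √(8 * (q : ℝ) * (G / Real.log G)) ≤ (1 + ε / 4) * (V / ρ) :=
          mul_le_mul_of_nonneg_left h7 (by positivity)
      _ = (1 + ε / 4) / ρ * V := by ring
      _ = _ := by rw [hρ2]
  have h9 : √(8 * (q : ℝ) * δ * X / Real.log X) ≤ V := by
    rw [hV]
    apply Real.sqrt_le_sqrt
    apply div_le_div_of_nonneg_right _ hl0.le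
    rw [mul_assoc (8 * (q : ℝ))]
    exact mul_le_mul_of_nonneg_left hG (by positivity)
  rw [← hV]
  calc A * (X + A) ^ N * Real.exp ((1 + ε / 4) * cst 1 q * (G / Real.log G) ^ ((1 : ℝ) / 2))
      ≤ Real.exp (ε / 2 * V) * Real.exp ((1 + ε / 2) * V) := by
        apply mul_le_mul _ (Real.exp_le_exp.2 hR) (by positivity) (by positivity)
        exact h2.trans (Real.exp_le_exp.2 (mul_le_mul_of_nonneg_left h9 (by positivity)))
    _ = _ := by
        rw [← Real.exp_add]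
        congr 1
        ring

/-! ### the grid of the exponents -/

theorem grid (K : Type) [Field K] [NumberField K] {q : ℕ} {κ₁ : ℝ} (hκ : κ₁ ≤ 1)
    (h4 : S_BIGQ K q κ₁) {α : Fin q → K × K} {S : Finset (Pr K)} {δ : ℝ} (hα : Al α)
    (hS : Gd S α) (hδ : 0 < δ) :
    ∃ D : ℝ, 0 < D ∧ ∀ X G : ℝ, 0 < X → δ * X ≤ G → G ≤ (κ₁ - δ) * X →
      ∃ κ : ℝ, 0 ≤ κ ∧ κ ≤ 1 ∧ ∀ F : Finset K,
        (∀ x ∈ F, Of α x ∧ hr (aff x) ≤ X ∧
          ∃ P, IsP S α x P ∧ tr P ≤ ((q : ℝ) - κ) * hr (aff x)) →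
        (F.card : ℝ) ≤ D * Real.exp (2 * X - G) := by
  classical
  have hbig : ∀ j : ℕ, ∃ D : ℝ, 0 < D ∧ ((j : ℝ) * (δ / 4) ≤ κ₁ → ∀ (X : ℝ) (F : Finset K),
      0 ≤ X → (∀ x ∈ F, Of α x ∧ hr (aff x) ≤ X ∧
        ∃ P, IsP S α x P ∧ tr P ≤ ((q : ℝ) - (j : ℝ) * (δ / 4)) * hr (aff x) + 0) →
      (F.card : ℝ) ≤ D * Real.exp ((2 - (j : ℝ) * (δ / 4) + δ / 8) * X)) := by
    intro j
    by_cases hj : (j : ℝ) * (δ / 4) ≤ κ₁
    · obtain ⟨D, hD, h⟩ := h4 α S ((j : ℝ) * (δ / 4)) (δ / 8) 0 hα hS (by positivity) hj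
        (by positivity)
      exact ⟨D, hD, fun _ => h⟩
    · exact ⟨1, one_pos, fun h => absurd h hj⟩
  choose D hD0 hD using hbig
  obtain ⟨N, hN⟩ : ∃ N : ℕ, N = ⌈4 / δ⌉₊ := ⟨_, rfl⟩
  have hDj : ∀ j ∈ range (N + 1), D j ≤ ∑ j ∈ range (N + 1), D j := fun j hj =>
    Finset.single_le_sum (f := D) (fun j _ => (hD0 j).le) hj
  refine ⟨∑ j ∈ range (N + 1), D j, ?_, ?_⟩
  · exact lt_of_lt_of_le (hD0 0) (hDj 0 (by simp))
  · intro X G hX hG1 hG2
    obtain ⟨y, hy⟩ : ∃ y : ℝ, y = 4 * G / (δ * X) + 1 := ⟨_, rfl⟩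
    have hy0 : 0 ≤ y := by
      have : 0 ≤ G := le_trans (by positivity) hG1
      rw [hy]; positivity
    have hyX : y * (δ / 4 * X) = G + δ / 4 * X := by
      rw [hy]
      field_simp
    obtain ⟨j, hj⟩ : ∃ j : ℕ, j = ⌈y⌉₊ := ⟨_, rfl⟩
    have hj1 : y ≤ j := by rw [hj]; exact Nat.le_ceil y
    have hj2 : (j : ℝ) < y + 1 := by rw [hj]; exact Nat.ceil_lt_add_one hy0
    have hδX : 0 < δ / 4 * X := by positivity
    have hj3 : G + δ / 4 * X ≤ (j : ℝ) * (δ / 4) * X := by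
      rw [← hyX, mul_assoc]
      exact mul_le_mul_of_nonneg_right hj1 hδX.le
    have hj4 : (j : ℝ) * (δ / 4) * X ≤ κ₁ * X := by
      have h5 : (j : ℝ) * (δ / 4 * X) ≤ (y + 1) * (δ / 4 * X) :=
        mul_le_mul_of_nonneg_right hj2.le hδX.le
      have h6 : (y + 1) * (δ / 4 * X) = G + δ / 4 * X + δ / 4 * X := by
        rw [add_mul, hyX]; ring
      have h7 : (κ₁ - δ) * X = κ₁ * X - δ * X := by ring
      have h8 : 0 < δ * X := by positivity
      rw [mul_assoc]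
      linarith
    have hj5 : (j : ℝ) * (δ / 4) ≤ κ₁ := le_of_mul_le_mul_right hj4 hX
    have hj6 : j ∈ range (N + 1) := by
      rw [mem_range, Nat.lt_succ_iff, hN]
      have h5 : (j : ℝ) ≤ 4 / δ := by
        rw [le_div_iff₀ hδ]
        linarith
      have h6 : (j : ℝ) ≤ ((⌈4 / δ⌉₊ : ℕ) : ℝ) := h5.trans (Nat.le_ceil _)
      exact_mod_cast h6
    refine ⟨(j : ℝ) * (δ / 4), by positivity, by linarith, fun F hF => ?_⟩
    have h5 := hD j hj5 X F hX.le (by
      intro x hx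
      obtain ⟨g1, g2, P, g3, g4⟩ := hF x hx
      exact ⟨g1, g2, P, g3, by linarith⟩)
    refine h5.trans ?_
    apply mul_le_mul (hDj j hj6) _ (by positivity) (le_trans (hD0 j).le (hDj j hj6))
    apply Real.exp_le_exp.2
    have h6 : (2 - (j : ℝ) * (δ / 4) + δ / 8) * X =
        2 * X - (j : ℝ) * (δ / 4) * X + δ / 4 * X / 2 := by ring
    rw [h6]
    linarith

/-- UPU: the upper bound, uniform in the gain -/
theorem upu (K : Type) [Field K] [NumberField K] (q : ℕ) (κ₁ : ℝ) (hq : 1 ≤ q) (hκ : κ₁ ≤ 1)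
    (h1 : S_BASQ K) (h2 : S_CELLQ K) (h3 : S_RANK K) (h4 : S_BIGQ K q κ₁) : S_UPU K q κ₁ := by
  classical
  intro α S δ ε hα hS hδ hε
  obtain ⟨C, hC, ha1, ha2⟩ := codes h1 hq hα hS
  obtain ⟨C', hC', hup⟩ := tl_up h1 hq hα hS
  obtain ⟨A, hA, hcell⟩ := h2 q α S hα hS
  have hcx := cx_sg hq
  obtain ⟨Z₀, hZ₀, hrank⟩ := h3 q (Sg q) 1 q (ε / 4) hcx (by positivity)
  obtain ⟨D₁, hD₁, hgrid⟩ := grid K hκ h4 hα hS hδ
  obtain ⟨B, hB⟩ : ∃ B : ℝ, B = A * (Real.exp 2 + Real.exp (2 * C')) * Real.exp C := ⟨_, rfl⟩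
  have hB0 : 0 < B := by rw [hB]; positivity
  obtain ⟨s, hs⟩ : ∃ s : ℕ, s = (Spl S).card := ⟨_, rfl⟩
  obtain ⟨M, hM⟩ : ∃ M : ℝ, M = D₁ + C * B + C + 1 := ⟨_, rfl⟩
  have hM0 : 0 < M := by rw [hM]; positivity
  have ev := (asym (N := 1 + s) hq hδ hε hM0).and
    ((eventually_ge_atTop (Z₀ / δ)).and (eventually_ge_atTop (1 : ℝ)))
  obtain ⟨X₀, hX₀⟩ := eventually_atTop.1 ev
  refine ⟨max X₀ 2, lt_max_of_lt_right (by norm_num), fun X G F hX hG1 hG2 hF => ?_⟩
  obtain ⟨hasy, hXZ, hX1⟩ := hX₀ X ((le_max_left _ _).trans hX)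
  have hX0 : 0 < X := by linarith
  have hGZ : Z₀ ≤ G := by
    rw [div_le_iff₀ hδ] at hXZ
    linarith
  have hG1' : 1 < G := lt_of_lt_of_le hZ₀ hGZ
  obtain ⟨R, hR⟩ : ∃ R : ℝ, R = (1 + ε / 4) * cst 1 q * (G / Real.log G) ^ ((1 : ℝ) / 2) :=
    ⟨_, rfl⟩
  have hR0 : 0 ≤ R := by
    have : 0 < Real.log G := Real.log_pos hG1'
    have : 0 ≤ cst 1 q := by rw [cst_one]; positivity
    rw [hR]; positivity
  have hasy' := hasy G hG1
  rw [← hR] at hasy'
  obtain ⟨κ, hκ0, hκ1, hbig⟩ := hgrid X G hX0 hG1 hG2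
  obtain ⟨Ta, ta1, ta2, ta3⟩ := ha2 X hX0.le
  rw [← hs] at ta1
  -- the points with a large gain
  obtain ⟨F₁, hF₁⟩ : ∃ F₁ : Finset K, F₁ = F.filter fun x =>
    ∃ P, IsP S α x P ∧ tr P ≤ ((q : ℝ) - κ) * hr (aff x) := ⟨_, rfl⟩
  obtain ⟨F₂, hF₂⟩ : ∃ F₂ : Finset K, F₂ = F.filter fun x =>
    ¬ ∃ P, IsP S α x P ∧ tr P ≤ ((q : ℝ) - κ) * hr (aff x) := ⟨_, rfl⟩
  have hFF : (F.card : ℝ) = F₁.card + F₂.card := by
    rw [hF₁, hF₂]
    exact_mod_cast (card_filter_add_card_filter_not _).symm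
  have hc1 : (F₁.card : ℝ) ≤ D₁ * Real.exp (2 * X - G) := by
    refine hbig F₁ fun x hx => ?_
    rw [hF₁, mem_filter] at hx
    obtain ⟨g1, -, g2, -⟩ := hF x hx.1
    exact ⟨g1, g2, hx.2⟩
  -- the codes of the other points
  have hfa : ∀ x : K, ∃ c : Option (ℕ × (Pl K → Fin q) × (Pl K → ℕ)), Of α x →
      hr (aff x) ≤ X → ∃ c₁ ∈ Ta, c = some c₁ ∧ Ic α S C c₁ x := by
    intro x
    by_cases hx : Of α x ∧ hr (aff x) ≤ X
    · obtain ⟨c, hc, hc'⟩ := ta3 x hx.1 hx.2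
      exact ⟨some c, fun _ _ => ⟨c, hc, rfl, hc'⟩⟩
    · exact ⟨none, fun h h' => absurd ⟨h, h'⟩ hx⟩
  choose fa hfa using hfa
  have hc2 : (F₂.card : ℝ) ≤ (Ta.card : ℝ) * (B * Real.exp (2 * X - G + R)) := by
    obtain ⟨U, hU⟩ : ∃ U : Finset (Option (ℕ × (Pl K → Fin q) × (Pl K → ℕ))),
      U = Ta.image some := ⟨_, rfl⟩
    have hUc : (U.card : ℝ) ≤ (Ta.card : ℝ) := by
      rw [hU]
      exact_mod_cast card_image_le
    rw [card_eq_sum_card_fiberwise (f := fa) (t := U) (by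
      intro x hx
      have hx' : x ∈ F₂ := hx
      rw [hF₂, mem_filter] at hx'
      obtain ⟨g1, -, g2, -⟩ := hF x hx'.1
      obtain ⟨c, hc, hc1, -⟩ := hfa x g1 g2
      rw [hU, hc1]
      exact mem_image_of_mem _ hc)]
    push_cast
    have hfib : ∀ u ∈ U, ((#{x ∈ F₂ | fa x = u} : ℕ) : ℝ) ≤ B * Real.exp (2 * X - G + R) := by
      intro u hu
      rw [hU, mem_image] at hu
      obtain ⟨c, hc, hcu⟩ := hu
      rw [hB]
      refine cls (c := c) (α := α) (S := S) (κ := κ) hq hA.le hC.le hκ1 hcell ?_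
        (fun x hx P hP => (ha1 x hx P hP).1) (fun x hx P hP hI => hup x hx P hP C c hI) ?_
      · intro T F' hT hF'
        have := hrank G T F' hGZ hT hF'
        rw [hR]
        have e1 : ((1 : ℕ) : ℝ) / (((1 : ℕ) : ℝ) + 1) = (1 : ℝ) / 2 := by norm_num
        rw [e1] at this
        exact this
      · intro x hx
        rw [mem_filter] at hx
        obtain ⟨hxF, hxu⟩ := hx
        rw [hF₂, mem_filter] at hxF
        obtain ⟨hxF, hxn⟩ := hxF
        obtain ⟨g1, -, g2, P, g3, g4⟩ := hF x hxF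
        obtain ⟨d, -, hd1, hd2⟩ := hfa x g1 g2
        rw [hd1, ← hcu] at hxu
        have e3 : d = c := Option.some.inj hxu
        rw [e3] at hd2
        refine ⟨g1, g2, hd2, P, g3, g4, ?_⟩
        by_contra h
        push Not at h
        exact hxn ⟨P, g3, h.le⟩
    refine (Finset.sum_le_sum hfib).trans ?_
    rw [Finset.sum_const, nsmul_eq_mul]
    exact mul_le_mul_of_nonneg_right hUc (by positivity)
  have hCM : C ≤ M := by
    have : 0 ≤ C * B := by positivity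
    rw [hM]; linarith
  have hM1 : 1 ≤ X + M := by linarith
  have hTB : (Ta.card : ℝ) * B + D₁ ≤ M * (X + M) ^ (1 + s) := by
    have e1 : (Ta.card : ℝ) ≤ C * (X + M) ^ (1 + s) := by
      refine ta1.trans ?_
      apply mul_le_mul_of_nonneg_left _ hC.le
      exact pow_le_pow_left₀ (by linarith) (by linarith) _
    have e2 : 1 ≤ (X + M) ^ (1 + s) := one_le_pow₀ hM1
    calc (Ta.card : ℝ) * B + D₁ ≤ C * (X + M) ^ (1 + s) * B + D₁ * (X + M) ^ (1 + s) := by
          apply add_le_add (mul_le_mul_of_nonneg_right e1 hB0.le)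
          exact le_mul_of_one_le_right hD₁.le e2
      _ = (D₁ + C * B) * (X + M) ^ (1 + s) := by ring
      _ ≤ M * (X + M) ^ (1 + s) := by
          apply mul_le_mul_of_nonneg_right _ (by positivity)
          rw [hM]; linarith
  have hE : Real.exp (2 * X - G) ≤ Real.exp (2 * X - G + R) := Real.exp_le_exp.2 (by linarith)
  calc (F.card : ℝ) = F₁.card + F₂.card := hFF
    _ ≤ D₁ * Real.exp (2 * X - G + R) + (Ta.card : ℝ) * (B * Real.exp (2 * X - G + R)) :=
        add_le_add (hc1.trans (mul_le_mul_of_nonneg_left hE hD₁.le)) hc2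
    _ = ((Ta.card : ℝ) * B + D₁) * (Real.exp (2 * X - G) * Real.exp R) := by
        rw [Real.exp_add]; ring
    _ ≤ (M * (X + M) ^ (1 + s)) * (Real.exp (2 * X - G) * Real.exp R) :=
        mul_le_mul_of_nonneg_right hTB (by positivity)
    _ = Real.exp (2 * X - G) * (M * (X + M) ^ (1 + s) * Real.exp R) := by ring
    _ ≤ Real.exp (2 * X - G) * Real.exp ((1 + ε) * √(8 * q * G / Real.log X)) :=
        mul_le_mul_of_nonneg_left hasy' (by positivity)
    _ = _ := by rw [← Real.exp_add]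

end Pool.Agent.N362.QP
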