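import Pool.Agent.N709.ST.Stm

/-!
# ST/CHAIN: the chain of stages with bookkeeping (helper362)
-/

namespace Pool.Agent.N362.STChain

open Pool.Agent.N709.ST Finset

lemma image_eq_of {C S : Finset ℕ} {p p' : ℕ → ℕ} (h : ∀ x ∈ C, p x = p' x) (hS : S ⊆ C) :
    S.image p = S.image p' :=
  Finset.image_congr fun x hx => h x (hS hx)

lemma iso_congr {t : ℕ} {c c' : Finset ℕ → ℕ} {C : Finset ℕ} {p p' : ℕ → ℕ}
    (h : ∀ x ∈ C, p x = p' x) (hI : Iso t c c' p C) : Iso t c c' p' C := by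
  refine ⟨fun x hx y hy hxy => hI.1 hx hy ?_, fun S hS S' hS' h1 h2 => ?_⟩
  · rw [h x hx, h y hy]
    exact hxy
  · rw [← image_eq_of h hS, ← image_eq_of h hS']
    exact hI.2 S hS S' hS' h1 h2

lemma valid_congr {s t : ℕ} {c : Finset ℕ → ℕ} {A B C : Finset ℕ} {p p' : ℕ → ℕ}
    (h : ∀ x ∈ C, p x = p' x) (hV : Valid s t c A B C p) : Valid s t c A B C p' := by
  obtain ⟨h1, h2, h3, h4, h5⟩ := hV
  refine ⟨h1, h2, h3, ?_, iso_congr h h5⟩
  rw [← image_eq_of h (Finset.Subset.refl C)]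
  exact h4

lemma done_congr {s t : ℕ} {c : Finset ℕ → ℕ} {A B C : Finset ℕ} {p p' : ℕ → ℕ}
    (h : ∀ x ∈ C, p x = p' x) (hD : Done s t c A B C p) : Done s t c A B C p' := by
  obtain ⟨f, h1, h2⟩ := hD
  exact ⟨f, fun x hx => (h1 x hx).trans (h x hx), h2⟩

theorem chain : Chain := by
  intro s t _ step c₀ A₀ h₀
  -- the tasks
  obtain ⟨g, hg⟩ := exists_surjective_nat (Finset ℕ × Finset ℕ × (ℕ →₀ ℕ))
  let e : ℕ → Finset ℕ × Finset ℕ × (ℕ →₀ ℕ) := fun n => g (Nat.unpair n).1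
  -- the next stage
  have step' : ∀ (n : ℕ) (x : {x : (Finset ℕ → ℕ) × Finset ℕ // Good s t x.1 x.2}),
      ∃ y : {x : (Finset ℕ → ℕ) × Finset ℕ // Good s t x.1 x.2},
        Ext s t x.1.1 x.1.2 y.1.1 y.1.2 ∧ n ∈ y.1.2 ∧
          (Valid s t x.1.1 x.1.2 (e n).1 (e n).2.1 (e n).2.2 →
            Done s t y.1.1 y.1.2 (e n).1 (e n).2.1 (e n).2.2) := by
    intro n x
    obtain ⟨c', A', h1, h2, h3⟩ := step x.1.1 x.1.2 n (e n).1 (e n).2.1 (e n).2.2 x.2
    exact ⟨⟨(c', A'), h1.2.2.1⟩, h1, h2, h3⟩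
  choose nx hnx using step'
  let st : ℕ → {x : (Finset ℕ → ℕ) × Finset ℕ // Good s t x.1 x.2} :=
    fun n => Nat.rec ⟨(c₀, A₀), h₀⟩ (fun k x => nx k x) n
  have hst : ∀ n, st (n + 1) = nx n (st n) := fun _ => rfl
  refine ⟨fun n => (st n).1.2, fun n => (st n).1.1, rfl, rfl, fun n => ?_, fun n => ?_, ?_⟩
  · show Ext s t (st n).1.1 (st n).1.2 (st (n + 1)).1.1 (st (n + 1)).1.2
    rw [hst]
    exact (hnx n (st n)).1
  · show n ∈ (st (n + 1)).1.2
    rw [hst]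
    exact (hnx n (st n)).2.1
  · intro B C p m
    obtain ⟨k, hk⟩ := hg (B, C, Finsupp.indicator C fun x _ => p x)
    have hp : ∀ x ∈ C, p x = (Finsupp.indicator C fun x _ => p x) x := by
      intro x hx
      rw [Finsupp.indicator_of_mem hx]
    refine ⟨Nat.pair k m, Nat.right_le_pair k m, fun hV => ?_⟩
    have he : e (Nat.pair k m) = (B, C, Finsupp.indicator C fun x _ => p x) := by
      show g (Nat.unpair (Nat.pair k m)).1 = _
      rw [Nat.unpair_pair]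
      exact hk
    have h3 := (hnx (Nat.pair k m) (st (Nat.pair k m))).2.2
    rw [he, ← hst] at h3
    exact done_congr (fun x hx => (hp x hx).symm) (h3 (valid_congr hp hV))

end Pool.Agent.N362.STChain
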